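import Pool.Agent.Zk74.MF.Class

/-!
Constant families, and the two basic examples of functionals.
-/

set_option autoImplicit false
set_option linter.all false

open Set Filter Topology MeasureTheory
open scoped Manifold ContDiff

noncomputable section

namespace Pool.Agent.Zk74.MF

open Pool.Agent.Y501.SY
open Pool.Agent.N763.SY (MPos NotM bij_of)

section examples

variable {P : Type}

/-- means on the bounded functions -/
theorem pfun_mean {m : (P → ℝ) → ℝ}
    (hadd : ∀ F G, Bdd F → Bdd G → m (fun p => F p + G p) = m F + m G)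
    (hsmul : ∀ (c : ℝ) F, Bdd F → m (fun p => c * F p) = c * m F)
    (hnn : ∀ F, Bdd F → (∀ p, 0 ≤ F p) → 0 ≤ m F) (hone : m (fun _ => 1) = 1) :
    PFun {F : P → ℝ | Bdd F} m where
  one_mem := ⟨1, fun _ => by simp⟩
  add_mem := fun F hF G hG => Pool.Agent.Y153.SY.bdd_add hF hG
  smul_mem := fun c F hF => Pool.Agent.Y153.SY.bdd_smul c hF
  lim_mem := by
    intro F C hC h
    obtain ⟨F', hF', h1⟩ := h 1 one_pos
    obtain ⟨a, ha⟩ := hC
    obtain ⟨b, hb⟩ := hF'
    refine ⟨a + b, fun p => ?_⟩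
    have h2 := h1 p
    have h3 := ha p
    have h4 := hb p
    rw [abs_le] at h2 h3 h4 ⊢
    constructor <;> linarith [h2.1, h2.2, h3.1, h3.2, h4.1, h4.2]
  add := fun F hF G hG => hadd F G hF hG
  smul := fun c F hF => hsmul c F hF
  nonneg := fun F hF h => hnn F hF h
  one := hone

/-- the integral of a probability measure -/
theorem pfun_integral [MeasurableSpace P] (μ : Measure P) [IsProbabilityMeasure μ] :
    PFun {F : P → ℝ | Integrable F μ} (fun F => ∫ p, F p ∂μ) where
  one_mem := integrable_const 1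
  add_mem := fun F hF G hG => hF.add hG
  smul_mem := fun c F hF => hF.const_mul c
  lim_mem := by
    intro F C hC h
    have h0 : ∀ n : ℕ, ∃ F' : P → ℝ, Integrable F' μ ∧
        ∀ p, |F p - F' p| ≤ (1 / ((n : ℝ) + 1)) * C p := fun n => by
      obtain ⟨F', h1, h2⟩ := h (1 / ((n : ℝ) + 1)) (by positivity)
      exact ⟨F', h1, h2⟩
    choose F' hF' hFF using h0
    have hmeas : AEStronglyMeasurable F μ := by
      refine aestronglyMeasurable_of_tendsto_ae atTop (fun n => (hF' n).aestronglyMeasurable) ?_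
      refine Eventually.of_forall fun p => ?_
      rw [tendsto_iff_dist_tendsto_zero]
      refine squeeze_zero (fun _ => dist_nonneg) (fun n => ?_)
        (f := fun n => dist (F' n p) (F p)) (g := fun n : ℕ => (1 / ((n : ℝ) + 1)) * C p) ?_
      · rw [Real.dist_eq, abs_sub_comm]
        exact hFF n p
      · have := (tendsto_one_div_add_atTop_nhds_zero_nat (𝕜 := ℝ)).mul_const (C p)
        rwa [zero_mul] at this
    refine ((hC.norm.add (hF' 0).norm)).mono' hmeas (Eventually.of_forall fun p => ?_)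
    have h1 := hFF 0 p
    simp only [Nat.cast_zero, zero_add, div_one, one_mul] at h1
    have h2 : |F p| ≤ |F p - F' 0 p| + |F' 0 p| := by
      have := abs_add_le (F p - F' 0 p) (F' 0 p)
      rwa [sub_add_cancel] at this
    simp only [Real.norm_eq_abs, Pi.add_apply]
    have h3 := le_abs_self (C p)
    linarith
  add := fun F hF G hG => integral_add hF hG
  smul := fun c F _ => integral_const_mul c F
  nonneg := fun F _ h => integral_nonneg h
  one := by simp

end examples

section

variable {d : ℕ} {Z X : Type} [TopologicalSpace Z] [ChartedSpace (E d) Z]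
  [TopologicalSpace X] [ChartedSpace (E d) X]

theorem smooth_pull1 {f : Z → X} (hf : ContMDiff (𝓡 d) (𝓡 d) ∞ f) {α : Form d X 1}
    (hα : IsSmooth α) : IsSmooth (pull1 (d := d) f α) := by
  intro U φ hU hφ
  refine (hα U (fun q => f (φ q)) hU (hf.comp_contMDiffOn hφ)).congr fun q hq => ?_
  exact pb_pull1 hf ((hφ.contMDiffAt (hU.mem_nhds hq)).mdifferentiableAt (by simp)) α

theorem smooth_pull2 {f : Z → X} (hf : ContMDiff (𝓡 d) (𝓡 d) ∞ f) {α : Form d X 2}
    (hα : IsSmooth α) : IsSmooth (pull (d := d) f α) := by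
  intro U φ hU hφ
  refine (hα U (fun q => f (φ q)) hU (hf.comp_contMDiffOn hφ)).congr fun q hq => ?_
  exact pb_pull2 hf ((hφ.contMDiffAt (hU.mem_nhds hq)).mdifferentiableAt (by simp)) α

variable [IsManifold (𝓡 d) ∞ Z] [IsManifold (𝓡 d) ∞ X] {G P : Type} [Group G] [MulAction G Z]
  {𝓕 : Set (P → ℝ)} {m : (P → ℝ) → ℝ}

/-- the constant family of the lift of a one-form -/
theorem const_family (hm : PFun 𝓕 m)
    (hsm : ∀ g : G, ContMDiff (𝓡 d) (𝓡 d) ∞ (fun z : Z => g • z)) {pr : Z → X}
    (hpr : IsLocalDiffeomorph (𝓡 d) (𝓡 d) ∞ pr)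
    (hfib : ∀ z z' : Z, pr z = pr z' ↔ ∃ g : G, g • z = z')
    {J : End d X} {σ : Form d X 2} {α : Form d X 1} {ρ : Form d X 2} (hα : IsSmooth α)
    (hρ : IsSmooth ρ) (hαρ : IsD α ρ) (h3 : ∀ x, TamesAt (σ + ρ) J x) :
    (∀ g : G, pull1 (d := d) (fun z : Z => g • z) (pull1 (d := d) pr α) = pull1 (d := d) pr α) ∧
      OBF 𝓕 (fun _ : P => pull1 (d := d) (X := Z) pr α) ∧
      Val 𝓕 (fun _ : P => pull1 (d := d) (X := Z) pr α) ∧
      ∀ (z : Z) (v : TangentSpace (𝓡 d) (pr z)), v ≠ 0 →
        MPos m pr J (fun _ : P => pull (d := d) (X := Z) pr σ + pull (d := d) (X := Z) pr ρ) z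
          v := by
  have hprs : ContMDiff (𝓡 d) (𝓡 d) ∞ pr := hpr.contMDiff
  refine ⟨fun g => ?_, ?_, fun z u => const_mem hm _, ?_⟩
  · funext z
    ext u
    have h1 : (pr ∘ fun z : Z => g • z) = pr := by
      funext z
      exact ((hfib z (g • z)).2 ⟨g, rfl⟩).symm
    have h2 : ∀ v : TangentSpace (𝓡 d) z, mfderiv (𝓡 d) (𝓡 d) (pr ∘ fun z : Z => g • z) z v =
        mfderiv (𝓡 d) (𝓡 d) pr (g • z) (mfderiv (𝓡 d) (𝓡 d) (fun z : Z => g • z) z v) := by
      intro v
      rw [mfderiv_comp z (hprs.mdifferentiableAt (by simp)) ((hsm g).mdifferentiableAt (by simp))]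
      rfl
    have e1 := pull1_apply (pr ∘ fun z : Z => g • z) α z u
    rw [h2] at e1
    rw [pull1_apply, pull1_apply]
    exact e1.symm.trans (congrArg (fun f => pull1 (d := d) f α z u) h1)
  · intro U φ hU hφ
    have hs := smooth_pull1 hprs hα U φ hU hφ
    refine ⟨fun _ => hs, fun n p hp => ?_⟩
    have hc : ContinuousOn (iteratedFDeriv ℝ n (pb φ (pull1 (d := d) (X := Z) pr α))) U := by
      intro q hq
      have h1 : ContDiffAt ℝ ∞ (pb φ (pull1 (d := d) (X := Z) pr α)) q :=
        (hs q hq).contDiffAt (hU.mem_nhds hq)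
      exact (h1.iteratedFDeriv_right (m := 0) (i := n)
        (by rw [zero_add]; exact_mod_cast le_top)).continuousAt.continuousWithinAt
    have h2 : ContinuousAt
        (fun q => ‖iteratedFDeriv ℝ n (pb φ (pull1 (d := d) (X := Z) pr α)) q‖) p :=
      (hc.continuousAt (hU.mem_nhds hp)).norm
    exact ⟨_, h2.eventually (gt_mem_nhds (lt_add_one _)), fun _ => _, const_mem hm _,
      fun q hq _ => le_of_lt hq⟩
  · intro z v hv
    obtain ⟨u, hu⟩ := (bij_of hpr z).2 v
    obtain ⟨u', hu'⟩ := (bij_of hpr z).2 (J (pr z) v)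
    refine ⟨u, u', hu, hu', ?_⟩
    have h4 : (pull (d := d) pr σ + pull (d := d) pr ρ : Form d Z 2) z ![u, u'] =
        (σ + ρ) (pr z) ![v, J (pr z) v] := by
      have h5 : (pull (d := d) pr σ + pull (d := d) pr ρ : Form d Z 2) z ![u, u'] =
        pull (d := d) pr σ z ![u, u'] + pull (d := d) pr ρ z ![u, u'] := rfl
      rw [h5, pull_apply, pull_apply, hu, hu']
      rfl
    rw [m_const hm, h4]
    exact h3 (pr z) v hv

end

end Pool.Agent.Zk74.MF
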