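import Pool.Agent.Y501.SY.PubU
import Pool.Agent.N763.SY.Pub

/-!
Equivariant families of one-forms on normal coverings: the definitions used in the statement of
the result.
-/

set_option autoImplicit false

open Set Filter Topology MeasureTheory
open scoped Manifold ContDiff

noncomputable section

namespace Pool.Agent.Zk74.MFP

open Pool.Agent.Y501.SYP

/-- `m` is a positive linear functional with `m 1 = 1` on the linear space `𝓕` of real functions
on the `G`-set `P`; `𝓕` contains the constants and is closed under relatively uniform limits, and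
`𝓕` and `m` are invariant under `G`. (The values of `m` outside `𝓕` are irrelevant.) -/
structure InvariantFunctional (G : Type) {P : Type} [Group G] [MulAction G P] (𝓕 : Set (P → ℝ))
    (m : (P → ℝ) → ℝ) : Prop where
  one_mem : (fun _ => 1) ∈ 𝓕
  add_mem : ∀ F ∈ 𝓕, ∀ F' ∈ 𝓕, (fun p => F p + F' p) ∈ 𝓕
  smul_mem : ∀ (c : ℝ), ∀ F ∈ 𝓕, (fun p => c * F p) ∈ 𝓕
  lim_mem : ∀ (F : P → ℝ), ∀ C ∈ 𝓕,
    (∀ ε : ℝ, 0 < ε → ∃ F' ∈ 𝓕, ∀ p, |F p - F' p| ≤ ε * C p) → F ∈ 𝓕
  inv_mem : ∀ (g : G), ∀ F ∈ 𝓕, (fun p => F (g • p)) ∈ 𝓕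
  add : ∀ F ∈ 𝓕, ∀ F' ∈ 𝓕, m (fun p => F p + F' p) = m F + m F'
  smul : ∀ (c : ℝ), ∀ F ∈ 𝓕, m (fun p => c * F p) = c * m F
  nonneg : ∀ F ∈ 𝓕, (∀ p, 0 ≤ F p) → 0 ≤ m F
  one : m (fun _ => 1) = 1
  inv : ∀ (g : G), ∀ F ∈ 𝓕, m (fun p => F (g • p)) = m F

section

variable {V : Type} [NormedAddCommGroup V] [NormedSpace ℝ V]
  {Z X : Type} [TopologicalSpace Z] [ChartedSpace V Z]
  [TopologicalSpace X] [ChartedSpace V X] {P : Type}

/-- All iterated derivatives of the family of functions `f` on `U` are locally bounded by elements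
of `𝓕`. -/
def OrderBdd {W : Type} [NormedAddCommGroup W] [NormedSpace ℝ W] (𝓕 : Set (P → ℝ))
    (f : P → V → W) (U : Set V) : Prop :=
  ∀ n : ℕ, ∀ q ∈ U, ∃ N ∈ 𝓝 q, ∃ C ∈ 𝓕, ∀ q' ∈ N, ∀ p, ‖iteratedFDeriv ℝ n (f p) q'‖ ≤ C p

/-- the pull-back of the one-form `β` by the action of `g` -/
def translate1 {G : Type} [Group G] [MulAction G Z] (g : G) (β : Form V Z 1) : Form V Z 1 :=
  fun z => (β (g • z)).compContinuousLinearMap
    (mfderiv 𝓘(ℝ, V) 𝓘(ℝ, V) (fun z : Z => g • z) z)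

/-- The one-forms `β p` are smooth with exterior derivatives `η p`, their values are in `𝓕` as
functions of `p`, they are locally bounded with all their derivatives by elements of `𝓕`, and the
pull-back of `β (g • p)` by `g` is `β p`. -/
structure OneFamily (G : Type) [Group G] [MulAction G Z] [MulAction G P] (𝓕 : Set (P → ℝ))
    (β : P → Form V Z 1) (η : P → Form V Z 2) : Prop where
  smooth : ∀ p, IsSmooth (β p)
  smooth_d : ∀ p, IsSmooth (η p)
  isD : ∀ p, IsD (β p) (η p)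
  values : ∀ (z : Z) (u : Fin 1 → TangentSpace 𝓘(ℝ, V) z), (fun p : P => β p z u) ∈ 𝓕
  bounded : ∀ (U : Set V) (φ : V → Z), SmoothParam U φ → OrderBdd 𝓕 (fun p : P => pb φ (β p)) U
  equivariant : ∀ (g : G) (p : P), translate1 g (β (g • p)) = β p

/-- the family of the two-forms `pr^* σ + η p` -/
def shift (pr : Z → X) (σ : Form V X 2) (η : P → Form V Z 2) (p : P) : Form V Z 2 :=
  addF (lift pr σ) (η p)

/-- `τ` is the sum of `σ` and the exterior derivative of a smooth one-form. -/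
def InClass (σ τ : Form V X 2) : Prop :=
  ∃ (α : Form V X 1) (ρ : Form V X 2), IsSmooth α ∧ IsSmooth ρ ∧ IsD α ρ ∧ τ = addF σ ρ

end

end Pool.Agent.Zk74.MFP
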