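import Pool.Agent.Y501.SY.BridgeU
import Pool.Agent.Zk74.MF.Pub
import Pool.Agent.Zk74.MF.Conv

/-!
Equivariant families of one-forms on normal coverings: comparison of the definitions.
-/

set_option autoImplicit false

open Set Filter Topology MeasureTheory
open scoped Manifold ContDiff

noncomputable section

namespace Pool.Agent.Zk74.MFP

open Pool.Agent.Y501.SYP Pool.Agent.N763.SYM

attribute [local instance] cs mf

section

variable {G P : Type} [Group G] [MulAction G P] {𝓕 : Set (P → ℝ)} {m : (P → ℝ) → ℝ}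

theorem pfun_of (h : InvariantFunctional G 𝓕 m) : MF.PFun 𝓕 m :=
  ⟨h.one_mem, h.add_mem, h.smul_mem, h.lim_mem, h.add, h.smul, h.nonneg, h.one⟩

theorem functional_mean (hm : InvariantMean G m) :
    InvariantFunctional G {F : P → ℝ | Bdd F} m := by
  have h := MF.pfun_mean hm.add hm.smul hm.nonneg hm.one
  refine ⟨h.one_mem, h.add_mem, h.smul_mem, h.lim_mem, ?_, h.add, h.smul, h.nonneg, h.one,
    fun g F hF => hm.inv g F hF⟩
  rintro g F ⟨C, hC⟩
  exact ⟨C, fun p => hC (g • p)⟩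

theorem functional_integral [MeasurableSpace P] (μ : Measure P) [IsProbabilityMeasure μ]
    (hμ : ∀ g : G, MeasurePreserving (fun p : P => g • p) μ μ) :
    InvariantFunctional G {F : P → ℝ | Integrable F μ} (fun F => ∫ p, F p ∂μ) := by
  have h := MF.pfun_integral μ
  refine ⟨h.one_mem, h.add_mem, h.smul_mem, h.lim_mem, ?_, h.add, h.smul, h.nonneg, h.one, ?_⟩
  · intro g F hF
    exact (hμ g).integrable_comp_of_integrable hF
  · intro g F hF
    have h1 : AEStronglyMeasurable F (Measure.map (fun p : P => g • p) μ) := by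
      rw [(hμ g).map_eq]
      exact (show Integrable F μ from hF).aestronglyMeasurable
    have h2 := integral_map (hμ g).measurable.aemeasurable h1
    rw [(hμ g).map_eq] at h2
    exact h2.symm

end

section

variable {d : ℕ} {Z X : Type} [TopologicalSpace Z] [ChartedSpace (ES d) Z]
  [IsManifold 𝓘(ℝ, ES d) ∞ Z] [TopologicalSpace X] [ChartedSpace (ES d) X]
  [IsManifold 𝓘(ℝ, ES d) ∞ X] {G P : Type} [Group G] [MulAction G Z] [MulAction G P]
  {𝓕 : Set (P → ℝ)} {m : (P → ℝ) → ℝ}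

theorem class_taming [CompactSpace X] [T2Space X] (hm : InvariantFunctional G 𝓕 m)
    {pr : Z → X} (hpr : NormalCovering (ES d) G pr) (J : End (ES d) X) (hJ : IsAlmostComplex J)
    {σ : Form (ES d) X 2} (hσ : IsSmooth σ) (hσc : IsClosedForm σ)
    {β : P → Form (ES d) Z 1} {η : P → Form (ES d) Z 2} (hβ : OneFamily G 𝓕 β η)
    {k : ℕ} {Y : Type} [TopologicalSpace Y] [ChartedSpace (ES k) Y] [IsManifold 𝓘(ℝ, ES k) ∞ Y]
    [T2Space Y] {f : X → Y} (hf : Kills (W := ES k) m pr J (shift pr σ η) f)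
    (hsmall : SmallOnFibres m pr J (shift pr σ η) f) :
    ∃ τ : Form (ES d) X 2, InClass σ τ ∧ IsTamingSymplectic τ J := by
  obtain ⟨α, ρ, h1, h2, h3, h4, h5⟩ := MF.class_main (d := d) (Z := Z) (X := X)
    (G := G) (P := P) (pfun_of hm) hm.inv hpr.smooth (pr := pr) hpr.diffeo hpr.surj hpr.orbits
    (J := J) (ac_of J hJ) (σ := σ) ((smooth_iff σ).1 hσ) ((closed_iff σ).1 hσc)
    (β := β) (η := η) (fun p => (smooth_iff (β p)).1 (hβ.smooth p))
    (fun p => (smooth_iff (η p)).1 (hβ.smooth_d p)) (fun p => (isD_iff _ _).1 (hβ.isD p))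
    hβ.equivariant
    (fun U φ hU hφ => ⟨fun p => hβ.smooth p U φ ⟨hU, hφ⟩, fun n q hq =>
      hβ.bounded U φ ⟨hU, hφ⟩ n q hq⟩) hβ.values
    (k := k) (Y := Y) (f := f) hf.smooth hf.kills (fun z hz => smallP_of (hsmall z hz))
  exact ⟨addF σ ρ, ⟨α, ρ, (smooth_iff α).2 h1, (smooth_iff ρ).2 h2, (isD_iff α ρ).2 h3, rfl⟩,
    symp_of ((smooth_iff _).2 (((smooth_iff σ).1 hσ).add h2)) ((closed_iff _).2 h4) h5⟩

theorem class_const (hm : InvariantFunctional G 𝓕 m)
    {pr : Z → X} (hpr : NormalCovering (ES d) G pr) (J : End (ES d) X)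
    {σ τ : Form (ES d) X 2} (hτ : InClass σ τ) (ht : IsTamingSymplectic τ J) :
    ∃ (β : P → Form (ES d) Z 1) (η : P → Form (ES d) Z 2), OneFamily G 𝓕 β η ∧
      ∀ (z : Z) (v : TangentSpace 𝓘(ℝ, ES d) (pr z)), v ≠ 0 →
        MeanPos m pr J (shift pr σ η) z v := by
  obtain ⟨α, ρ, hα, hρ, hαρ, rfl⟩ := hτ
  obtain ⟨h1, h2, h3, h4⟩ := MF.const_family (d := d) (Z := Z) (X := X) (G := G) (P := P)
    (pfun_of hm) hpr.smooth (pr := pr) hpr.diffeo hpr.orbits (J := J) (σ := σ) (α := α)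
    (ρ := ρ) ((smooth_iff α).1 hα) ((smooth_iff ρ).1 hρ) ((isD_iff α ρ).1 hαρ) ht.tames
  have hprs := hpr.diffeo.contMDiff
  refine ⟨fun _ => Pool.Agent.Y501.SY.pull1 (d := d) (X := Z) pr α,
    fun _ => Pool.Agent.Y501.SY.pull (d := d) (X := Z) pr ρ,
    ⟨fun _ => (smooth_iff _).2 (MF.smooth_pull1 hprs ((smooth_iff α).1 hα)),
      fun _ => (smooth_iff _).2 (MF.smooth_pull2 hprs ((smooth_iff ρ).1 hρ)),
      fun _ => (isD_iff _ _).2 (MF.isD_pull hprs ((isD_iff α ρ).1 hαρ)), h3,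
      fun U φ hφ n q hq => (h2 U φ hφ.1 hφ.2).2 n q hq, fun g _ => h1 g⟩, h4⟩

end

end Pool.Agent.Zk74.MFP
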