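import Pool.Agent.Zk74.MF.Mean

/-!
Means of equivariant families of one-forms on a normal covering, and prescribed classes.
-/

set_option autoImplicit false
set_option linter.all false

open Set Filter Topology MeasureTheory
open scoped Manifold ContDiff

noncomputable section

namespace Pool.Agent.Zk74.MF

open Pool.Agent.Y501.SY
open Pool.Agent.N763.SY (MPos NotM bij_of)

section

variable {d : ℕ} {Z X : Type} [TopologicalSpace Z] [ChartedSpace (E d) Z]
  [IsManifold (𝓡 d) ∞ Z] [TopologicalSpace X] [ChartedSpace (E d) X]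
  [IsManifold (𝓡 d) ∞ X] {G P : Type} [Group G] [MulAction G Z] [MulAction G P]
  {𝓕 : Set (P → ℝ)} {m : (P → ℝ) → ℝ}

theorem class_main (hm : PFun 𝓕 m)
    (hinv : ∀ (g : G), ∀ F ∈ 𝓕, m (fun p => F (g • p)) = m F)
    (hsm : ∀ g : G, ContMDiff (𝓡 d) (𝓡 d) ∞ (fun z : Z => g • z)) {pr : Z → X}
    (hpr : IsLocalDiffeomorph (𝓡 d) (𝓡 d) ∞ pr) (hsurj : Function.Surjective pr)
    (hfib : ∀ z z' : Z, pr z = pr z' ↔ ∃ g : G, g • z = z')
    [CompactSpace X] [T2Space X] {J : End d X} (hJ : IsAlmostComplex J)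
    {σ : Form d X 2} (hσ : IsSmooth σ) (hσc : IsClosedForm σ)
    {β : P → Form d Z 1} {η : P → Form d Z 2}
    (hβ : ∀ p, IsSmooth (β p)) (hη : ∀ p, IsSmooth (η p)) (hD : ∀ p, IsD (β p) (η p))
    (heq : ∀ (g : G) (p : P), pull1 (d := d) (fun z : Z => g • z) (β (g • p)) = β p)
    (hw : OBF 𝓕 β) (hv : Val 𝓕 β)
    {k : ℕ} {Y : Type} [TopologicalSpace Y] [ChartedSpace (E k) Y] [IsManifold (𝓡 k) ∞ Y]
    [T2Space Y] {f : X → Y} (hf : ContMDiff (𝓡 d) (𝓡 k) ∞ f)
    (hker : ∀ (z : Z) (v : TangentSpace (𝓡 d) (pr z)),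
      ¬ MPos m pr J (fun p => pull (d := d) pr σ + η p) z v →
      mfderiv (𝓡 d) (𝓡 k) f (pr z) v = 0)
    (hsmall : ∀ z : Z, pr z ∈ NotM m pr J (fun p => pull (d := d) pr σ + η p) →
      SmallP J (connectedComponentIn (NotM m pr J (fun p => pull (d := d) pr σ + η p) ∩
        f ⁻¹' {f (pr z)}) (pr z)) (pr z)
        (fun v => ¬ MPos m pr J (fun p => pull (d := d) pr σ + η p) z v)) :
    ∃ (α : Form d X 1) (ρ : Form d X 2), IsSmooth α ∧ IsSmooth ρ ∧ IsD α ρ ∧
      IsClosedForm (σ + ρ) ∧ ∀ x, TamesAt (σ + ρ) J x := by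
  obtain ⟨β', η', hβ', hη', hβη', hav1, hav2⟩ := mean_pair hm hβ hη hD hw hv
  have hinv1 : ∀ g : G, pull1 (d := d) (fun z : Z => g • z) β' = β' := by
    intro g
    funext z
    ext u
    have e1 := pull1_apply (fun z : Z => g • z) β' z u
    rw [e1, hav1, hav1, ← hinv g _ (hv _ _)]
    congr 1
    funext p
    rw [← pull1_apply, heq]
  have hinv2 : ∀ g : G, pull (d := d) (fun z : Z => g • z) η' = η' := by
    intro g
    have h1 := isD_pull (hsm g) hβη'
    rw [hinv1 g] at h1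
    exact isD_unique h1 hβη'
  obtain ⟨α₀, ρ₀, hα₀, hρ₀, hαρ₀, hpα, hpρ⟩ := Pool.Agent.Y945.SY.t_DESC1 d Z X G pr hsm hpr
    hsurj hfib β' η' hβ' hη' hβη' hinv1 hinv2
  have hρ₀c : IsClosedForm ρ₀ := closed_of_isD hα₀ hρ₀ hαρ₀
  have hσ' : IsSmooth (σ + ρ₀) := hσ.add hρ₀
  have hσ'c : IsClosedForm (σ + ρ₀) := by
    have h1 := hσc.add hρ₀c hσ hρ₀
    rwa [add_zero] at h1
  have hvη := val_d hm hβ hD hw hv
  have hbij := bij_of hpr
  have key : ∀ (z : Z) (v : TangentSpace (𝓡 d) (pr z)),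
      MPos m pr J (fun p => pull (d := d) pr σ + η p) z v ↔
        0 < (σ + ρ₀) (pr z) ![v, J (pr z) v] := by
    intro z v
    have e1 : ∀ u u' : TangentSpace (𝓡 d) z, mfderiv (𝓡 d) (𝓡 d) pr z u = v →
        mfderiv (𝓡 d) (𝓡 d) pr z u' = J (pr z) v →
        (σ + ρ₀) (pr z) ![v, J (pr z) v] =
          m (fun p : P => (pull (d := d) pr σ + η p) z ![u, u']) := by
      intro u u' hu hu'
      have h1 : (σ + ρ₀) (pr z) ![v, J (pr z) v] =
        σ (pr z) ![v, J (pr z) v] + ρ₀ (pr z) ![v, J (pr z) v] := rfl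
      have h2 : (fun p : P => (pull (d := d) pr σ + η p) z ![u, u']) =
        fun p : P => (fun _ : P => pull (d := d) pr σ z ![u, u']) p + (fun p => η p z ![u, u']) p :=
        rfl
      rw [h2, hm.add _ (const_mem hm _) _ (hvη z _), m_const hm, ← hav2, ← hpρ, pull_apply,
        pull_apply, hu, hu', h1]
    constructor
    · rintro ⟨u, u', hu, hu', h0⟩
      rw [e1 u u' hu hu']
      exact h0
    · intro h0
      obtain ⟨u, hu⟩ := (hbij z).2 v
      obtain ⟨u', hu'⟩ := (hbij z).2 (J (pr z) v)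
      exact ⟨u, u', hu, hu', by rw [← e1 u u' hu hu']; exact h0⟩
  have hset : {x | ¬ TamesAt (σ + ρ₀) J x} =
      NotM m pr J (fun p => pull (d := d) pr σ + η p) := by
    ext x
    constructor
    · intro hx
      obtain ⟨z, rfl⟩ := hsurj x
      by_contra hne
      apply hx
      intro v hv
      rw [← key z v]
      by_contra hn
      exact hne ⟨z, rfl, v, hv, hn⟩
    · rintro ⟨z, rfl, v, hv, hn⟩ ht
      exact hn ((key z v).2 (ht v hv))
  obtain ⟨σ', α, h1, h2, h3, -, h5, h6⟩ := final hJ hσ' hσ'c hf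
    (by
      intro x v hv
      obtain ⟨z, rfl⟩ := hsurj x
      exact hker z v fun h => absurd ((key z v).1 h) (not_lt.2 hv))
    (by
      intro x hx
      obtain ⟨z, rfl⟩ := hsurj x
      have hx' : pr z ∈ NotM m pr J (fun p => pull (d := d) pr σ + η p) := by
        rw [← hset]; exact hx
      rw [hset]
      refine (hsmall z hx').smallAt subset_rfl fun v hv hle => ?_
      intro hup
      exact absurd ((key z v).1 hup) (not_lt.2 hle))
  have hρ : IsSmooth (σ' - σ) := by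
    have h7 := h1.add (hσ.smul (-1))
    have h8 : σ' + (-1 : ℝ) • σ = σ' - σ := by
      funext x
      ext u
      change σ' x u + (-1 : ℝ) * σ x u = σ' x u - σ x u
      ring
    rwa [h8] at h7
  refine ⟨α₀ + α, σ' - σ, hα₀.add h5, hρ, ?_, ?_, ?_⟩
  · have h7 := hαρ₀.add h6 hα₀ h5
    have h8 : ρ₀ + (σ' - (σ + ρ₀)) = σ' - σ := by abel
    rwa [h8] at h7
  · rwa [add_sub_cancel]
  · rwa [add_sub_cancel]

end

end Pool.Agent.Zk74.MF
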