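import Pool.Agent.Y501.SY.FinalU

/-!
Positive functionals on spaces of functions closed under relatively uniform limits, and the
images of families of smooth functions (after `Pool.Agent.N763.SY.Fam`).
-/

set_option autoImplicit false
set_option linter.all false

open Set Filter Topology MeasureTheory Asymptotics
open scoped Manifold ContDiff

noncomputable section

namespace Pool.Agent.Zk74.MF

open Pool.Agent.Y501.SY

/-- a normalised positive linear functional on a space `𝓕` of functions on `P`, closed under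
relatively uniform limits -/
structure PFun {P : Type} (𝓕 : Set (P → ℝ)) (m : (P → ℝ) → ℝ) : Prop where
  one_mem : (fun _ => 1) ∈ 𝓕
  add_mem : ∀ F ∈ 𝓕, ∀ G ∈ 𝓕, (fun p => F p + G p) ∈ 𝓕
  smul_mem : ∀ (c : ℝ), ∀ F ∈ 𝓕, (fun p => c * F p) ∈ 𝓕
  lim_mem : ∀ (F : P → ℝ), ∀ C ∈ 𝓕,
    (∀ ε : ℝ, 0 < ε → ∃ F' ∈ 𝓕, ∀ p, |F p - F' p| ≤ ε * C p) → F ∈ 𝓕
  add : ∀ F ∈ 𝓕, ∀ G ∈ 𝓕, m (fun p => F p + G p) = m F + m G
  smul : ∀ (c : ℝ), ∀ F ∈ 𝓕, m (fun p => c * F p) = c * m F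
  nonneg : ∀ F ∈ 𝓕, (∀ p, 0 ≤ F p) → 0 ≤ m F
  one : m (fun _ => 1) = 1

section mean

variable {P : Type} {𝓕 : Set (P → ℝ)} {m : (P → ℝ) → ℝ}

theorem const_mem (hm : PFun 𝓕 m) (c : ℝ) : (fun _ : P => c) ∈ 𝓕 := by
  have h := hm.smul_mem c _ hm.one_mem
  simpa using h

theorem PFun.nonempty (hm : PFun 𝓕 m) : Nonempty P := by
  by_contra h
  rw [not_nonempty_iff] at h
  have h1 := hm.smul 0 (fun _ => 1) hm.one_mem
  have h2 : (fun p : P => (0 : ℝ) * 1) = fun _ => 1 := by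
    funext p
    exact h.elim p
  rw [h2, hm.one] at h1
  norm_num at h1

theorem m_const (hm : PFun 𝓕 m) (c : ℝ) : m (fun _ : P => c) = c := by
  have h := hm.smul c (fun _ => 1) hm.one_mem
  rw [hm.one] at h
  simpa using h

theorem sub_mem (hm : PFun 𝓕 m) {F G : P → ℝ} (hF : F ∈ 𝓕) (hG : G ∈ 𝓕) :
    (fun p => F p - G p) ∈ 𝓕 := by
  have h1 := hm.add_mem F hF (fun γ => (-1) * G γ) (hm.smul_mem (-1) G hG)
  have e : (fun γ => F γ - G γ) = fun γ => F γ + (-1) * G γ := by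
    funext γ
    ring
  rw [e]
  exact h1

theorem m_sub (hm : PFun 𝓕 m) {F G : P → ℝ} (hF : F ∈ 𝓕) (hG : G ∈ 𝓕) :
    m (fun γ => F γ - G γ) = m F - m G := by
  have h1 := hm.add F hF (fun γ => (-1) * G γ) (hm.smul_mem (-1) G hG)
  rw [hm.smul (-1) G hG] at h1
  have e : (fun γ => F γ - G γ) = fun γ => F γ + (-1) * G γ := by
    funext γ
    ring
  rw [e, h1]
  ring

theorem m_mono (hm : PFun 𝓕 m) {F G : P → ℝ} (hF : F ∈ 𝓕) (hG : G ∈ 𝓕)
    (h : ∀ p, F p ≤ G p) : m F ≤ m G := by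
  have h1 := hm.nonneg _ (sub_mem hm hG hF) fun p => sub_nonneg.2 (h p)
  rw [m_sub hm hG hF] at h1
  linarith

theorem m_abs (hm : PFun 𝓕 m) {F C : P → ℝ} (hF : F ∈ 𝓕) (hC : C ∈ 𝓕)
    (h : ∀ γ, |F γ| ≤ C γ) : |m F| ≤ m C := by
  rw [abs_le]
  constructor
  · have h1 := m_mono hm (hm.smul_mem (-1) C hC) hF fun p => by
      have := (abs_le.1 (h p)).1
      linarith
    rw [hm.smul (-1) C hC] at h1
    linarith
  · exact m_mono hm hF hC fun p => (abs_le.1 (h p)).2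

theorem m_sum (hm : PFun 𝓕 m) {ι : Type} (s : Finset ι) (c : ι → ℝ) (G : ι → P → ℝ)
    (hG : ∀ i, G i ∈ 𝓕) :
    (fun γ => ∑ i ∈ s, c i * G i γ) ∈ 𝓕 ∧
      m (fun γ => ∑ i ∈ s, c i * G i γ) = ∑ i ∈ s, c i * m (G i) := by
  classical
  induction s using Finset.induction_on with
  | empty =>
    simp only [Finset.sum_empty]
    exact ⟨const_mem hm 0, m_const hm 0⟩
  | insert a s ha ih =>
    simp only [Finset.sum_insert ha]
    refine ⟨hm.add_mem _ (hm.smul_mem _ _ (hG a)) _ ih.1, ?_⟩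
    rw [hm.add _ (hm.smul_mem _ _ (hG a)) _ ih.1, hm.smul _ _ (hG a), ih.2]

end mean

/-- a family of functions on `U`, all of whose iterated derivatives are locally bounded by
elements of `𝓕` -/
def OB {P : Type} (𝓕 : Set (P → ℝ)) {V W : Type} [NormedAddCommGroup V] [NormedSpace ℝ V]
    [NormedAddCommGroup W] [NormedSpace ℝ W] (f : P → V → W) (U : Set V) : Prop :=
  (∀ γ, ContDiffOn ℝ ∞ (f γ) U) ∧
  ∀ n : ℕ, ∀ p ∈ U, ∃ N ∈ 𝓝 p, ∃ C ∈ 𝓕, ∀ q ∈ N, ∀ γ, ‖iteratedFDeriv ℝ n (f γ) q‖ ≤ C γ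

/-- a family of real functions on `U`, all of whose iterated derivatives are locally bounded by
elements of `𝓕`, and whose values are in `𝓕` -/
def OM {P : Type} (𝓕 : Set (P → ℝ)) {V : Type} [NormedAddCommGroup V] [NormedSpace ℝ V]
    (f : P → V → ℝ) (U : Set V) : Prop :=
  OB 𝓕 f U ∧ ∀ q ∈ U, (fun γ => f γ q) ∈ 𝓕

variable {P : Type} {𝓕 : Set (P → ℝ)} {m : (P → ℝ) → ℝ} {d : ℕ} {U : Set (E d)}
  {f : P → E d → ℝ}

theorem ob_deriv (hm : PFun 𝓕 m) (hU : IsOpen U) (hf : OB 𝓕 f U) (v : E d) :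
    OB 𝓕 (fun γ p => fderiv ℝ (f γ) p v) U := by
  have h0 : ∀ γ, ContDiffOn ℝ ∞ (fderiv ℝ (f γ)) U := fun γ =>
    (hf.1 γ).fderiv_of_isOpen hU (by simp)
  refine ⟨fun γ => (h0 γ).clm_apply contDiffOn_const, fun n p hp => ?_⟩
  obtain ⟨N, hN, C, hC𝓕, hC⟩ := hf.2 (n + 1) p hp
  refine ⟨N ∩ U, inter_mem hN (hU.mem_nhds hp), fun γ => ‖v‖ * C γ, hm.smul_mem _ _ hC𝓕,
    fun q hq γ => ?_⟩
  have h1 : ContDiffAt ℝ ∞ (fderiv ℝ (f γ)) q := (h0 γ).contDiffAt (hU.mem_nhds hq.2)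
  have h2 := norm_iteratedFDeriv_clm_apply_const (x := q) (c := v) (n := n) h1
    (by exact_mod_cast le_top)
  refine h2.trans ?_
  rw [norm_iteratedFDeriv_fderiv]
  exact mul_le_mul_of_nonneg_left (hC q hq.1 γ) (norm_nonneg v)

/-- Taylor's formula of second order, uniformly -/
theorem taylor (hU : IsOpen U) (hf : OB 𝓕 f U) {p : E d} (hp : p ∈ U) :
    ∃ r : ℝ, 0 < r ∧ Metric.ball p r ⊆ U ∧ ∃ C ∈ 𝓕, ∀ q ∈ Metric.ball p r, ∀ γ,
      |f γ q - f γ p - fderiv ℝ (f γ) p (q - p)| ≤ ‖q - p‖ ^ 2 * C γ := by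
  obtain ⟨N, hN, C, hC𝓕, hC⟩ := hf.2 2 p hp
  obtain ⟨r, hr, hrN⟩ := Metric.mem_nhds_iff.1 (inter_mem hN (hU.mem_nhds hp))
  refine ⟨r, hr, fun z hz => (hrN hz).2, C, hC𝓕, fun q hq γ => ?_⟩
  have hC0 : 0 ≤ C γ := (norm_nonneg _).trans (hC p (mem_of_mem_nhds hN) γ)
  have hd : ∀ z ∈ Metric.ball p r, DifferentiableAt ℝ (f γ) z := fun z hz =>
    ((hf.1 γ).contDiffAt (hU.mem_nhds (hrN hz).2)).differentiableAt (by simp)
  have hd2 : ∀ z ∈ Metric.ball p r, DifferentiableAt ℝ (fderiv ℝ (f γ)) z := fun z hz =>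
    (((hf.1 γ).fderiv_of_isOpen hU (m := ∞) (by simp)).contDiffAt
      (hU.mem_nhds (hrN hz).2)).differentiableAt (by simp)
  have hb2 : ∀ z ∈ Metric.ball p r, ‖fderiv ℝ (fderiv ℝ (f γ)) z‖ ≤ C γ := fun z hz => by
    have h := hC z (hrN hz).1 γ
    rwa [show (2 : ℕ) = 1 + 1 from rfl, ← norm_iteratedFDeriv_fderiv,
      norm_iteratedFDeriv_one] at h
  have hl : ∀ z ∈ Metric.ball p r, ‖fderiv ℝ (f γ) z - fderiv ℝ (f γ) p‖ ≤ C γ * ‖z - p‖ :=
    fun z hz => (convex_ball p r).norm_image_sub_le_of_norm_fderiv_le hd2 hb2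
      (Metric.mem_ball_self hr) hz
  have hsub : Metric.closedBall p ‖q - p‖ ⊆ Metric.ball p r :=
    Metric.closedBall_subset_ball (by simpa [dist_eq_norm] using hq)
  have h := (convex_closedBall p ‖q - p‖).norm_image_sub_le_of_norm_hasFDerivWithin_le'
    (f := f γ) (f' := fderiv ℝ (f γ)) (φ := fderiv ℝ (f γ) p) (C := C γ * ‖q - p‖) (x := p)
    (y := q)
    (fun z hz => (hd z (hsub hz)).hasFDerivAt.hasFDerivWithinAt)
    (fun z hz => (hl z (hsub hz)).trans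
      (mul_le_mul_of_nonneg_left (mem_closedBall_iff_norm.1 hz) hC0))
    (Metric.mem_closedBall_self (norm_nonneg _)) (by simp [dist_eq_norm])
  rw [Real.norm_eq_abs] at h
  refine h.trans (le_of_eq ?_)
  ring

/-- the derivatives of a family are in `𝓕` -/
theorem om_deriv (hm : PFun 𝓕 m) (hU : IsOpen U) (hf : OM 𝓕 f U) (v : E d) :
    OM 𝓕 (fun γ p => fderiv ℝ (f γ) p v) U := by
  refine ⟨ob_deriv hm hU hf.1 v, fun p hp => ?_⟩
  obtain ⟨r, hr, hrU, C, hC𝓕, hC⟩ := taylor hU hf.1 hp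
  have hC0 : ∀ γ, 0 ≤ ‖v‖ ^ 2 * C γ ∨ v = 0 := by
    intro γ
    by_cases hv : v = 0
    · exact Or.inr hv
    refine Or.inl ?_
    have hv0 : 0 < ‖v‖ := norm_pos_iff.2 hv
    have h1 := hC (p + (r / (2 * ‖v‖)) • v) (by
      rw [Metric.mem_ball, dist_eq_norm, add_sub_cancel_left, norm_smul, Real.norm_eq_abs,
        abs_of_pos (by positivity)]
      have : r / (2 * ‖v‖) * ‖v‖ = r / 2 := by field_simp
      rw [this]
      linarith) γ
    have h2 := (abs_nonneg _).trans h1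
    rw [add_sub_cancel_left, norm_smul, Real.norm_eq_abs, abs_of_pos (by positivity)] at h2
    have h3 : (r / (2 * ‖v‖) * ‖v‖) ^ 2 = r ^ 2 / 4 := by field_simp; ring
    rw [h3] at h2
    have h4 : 0 ≤ C γ := by
      by_contra h5
      push Not at h5
      have : r ^ 2 / 4 * C γ < 0 := mul_neg_of_pos_of_neg (by positivity) h5
      linarith
    positivity
  refine hm.lim_mem _ (fun γ => ‖v‖ ^ 2 * C γ) (hm.smul_mem _ _ hC𝓕) fun ε hε => ?_
  obtain ⟨t, ht0, ht⟩ : ∃ t : ℝ, 0 < t ∧ t ≤ ε ∧ t * ‖v‖ < r := by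
    refine ⟨min ε (r / (2 * (‖v‖ + 1))), lt_min hε (by positivity), min_le_left _ _, ?_⟩
    have h1 : min ε (r / (2 * (‖v‖ + 1))) * ‖v‖ ≤ r / (2 * (‖v‖ + 1)) * ‖v‖ :=
      mul_le_mul_of_nonneg_right (min_le_right _ _) (norm_nonneg _)
    have h2 : r / (2 * (‖v‖ + 1)) * ‖v‖ < r := by
      rw [div_mul_eq_mul_div, div_lt_iff₀ (by positivity)]
      nlinarith [norm_nonneg v]
    exact h1.trans_lt h2
  have hball : p + t • v ∈ Metric.ball p r := by
    rw [Metric.mem_ball, dist_eq_norm, add_sub_cancel_left, norm_smul, Real.norm_eq_abs,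
      abs_of_pos ht0]
    exact ht.2
  refine ⟨fun γ => t⁻¹ * (f γ (p + t • v) - f γ p),
    hm.smul_mem _ _ (sub_mem hm (hf.2 _ (hrU hball)) (hf.2 p hp)), fun γ => ?_⟩
  have h1 := hC _ hball γ
  rw [add_sub_cancel_left, map_smul, norm_smul, Real.norm_eq_abs, abs_of_pos ht0,
    smul_eq_mul] at h1
  have h2 : fderiv ℝ (f γ) p v - t⁻¹ * (f γ (p + t • v) - f γ p) =
      -(t⁻¹ * (f γ (p + t • v) - f γ p - t * fderiv ℝ (f γ) p v)) := by
    field_simp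
    ring
  rw [h2, abs_neg, abs_mul, abs_of_pos (inv_pos.2 ht0)]
  have h3 : t⁻¹ * |f γ (p + t • v) - f γ p - t * fderiv ℝ (f γ) p v| ≤
      t⁻¹ * ((t * ‖v‖) ^ 2 * C γ) := mul_le_mul_of_nonneg_left h1 (inv_pos.2 ht0).le
  refine h3.trans ?_
  have h4 : t⁻¹ * ((t * ‖v‖) ^ 2 * C γ) = t * (‖v‖ ^ 2 * C γ) := by
    field_simp
  rw [h4]
  rcases hC0 γ with h | h
  · exact mul_le_mul_of_nonneg_right ht.1 h
  · rw [h]
    simp

/-- the derivative of the mean -/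
def L (m : (P → ℝ) → ℝ) (f : P → E d → ℝ) (p : E d) : E d →L[ℝ] ℝ :=
  ∑ i : Fin d, m (fun γ => fderiv ℝ (f γ) p (EuclideanSpace.single i 1)) •
    (EuclideanSpace.proj i : E d →L[ℝ] ℝ)

theorem L_apply (hm : PFun 𝓕 m) (hU : IsOpen U) (hf : OM 𝓕 f U) {p : E d} (hp : p ∈ U)
    (v : E d) : L m f p v = m (fun γ => fderiv ℝ (f γ) p v) := by
  have h1 : ∀ γ, fderiv ℝ (f γ) p v =
      ∑ i, v i * fderiv ℝ (f γ) p (EuclideanSpace.single i 1) := by
    intro γ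
    have hv : v = ∑ i, v i • (EuclideanSpace.single i (1 : ℝ) : E d) := by
      ext j
      simp [Pi.single_apply]
    conv_lhs => rw [hv, map_sum]
    simp
  simp only [h1]
  rw [(m_sum hm Finset.univ (fun i => v i)
    (fun i γ => fderiv ℝ (f γ) p (EuclideanSpace.single i 1))
    (fun i => (om_deriv hm hU hf _).2 p hp)).2]
  simp [L, mul_comm]

theorem hasFDeriv (hm : PFun 𝓕 m) (hU : IsOpen U) (hf : OM 𝓕 f U) {p : E d} (hp : p ∈ U) :
    HasFDerivAt (fun q => m (fun γ => f γ q)) (L m f p) p := by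
  obtain ⟨r, hr, hrU, C, hC𝓕, hC⟩ := taylor hU hf.1 hp
  refine HasFDerivAt.of_isLittleO ?_
  refine (IsBigO.of_bound (m C) ?_).trans_isLittleO (isLittleO_pow_sub_sub p one_lt_two)
  filter_upwards [Metric.ball_mem_nhds p hr] with q hq
  have hqU : q ∈ U := hrU hq
  have hb1 : (fun γ => f γ q) ∈ 𝓕 := hf.2 q hqU
  have hb2 : (fun γ => f γ p) ∈ 𝓕 := hf.2 p hp
  have hb3 : (fun γ => fderiv ℝ (f γ) p (q - p)) ∈ 𝓕 := (om_deriv hm hU hf _).2 p hp
  rw [L_apply hm hU hf hp, ← m_sub hm hb1 hb2, ← m_sub hm (sub_mem hm hb1 hb2) hb3,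
    Real.norm_eq_abs, Real.norm_eq_abs, abs_of_nonneg (by positivity : (0 : ℝ) ≤ ‖q - p‖ ^ 2)]
  have h := m_abs hm (sub_mem hm (sub_mem hm hb1 hb2) hb3)
    (hm.smul_mem (‖q - p‖ ^ 2) _ hC𝓕) (hC q hq)
  rw [hm.smul _ _ hC𝓕] at h
  rw [mul_comm]
  exact h

theorem smooth_nat (hm : PFun 𝓕 m) (hU : IsOpen U) (n : ℕ) : ∀ f : P → E d → ℝ, OM 𝓕 f U →
    ContDiffOn ℝ n (fun q => m (fun γ => f γ q)) U := by
  induction n with
  | zero =>
    intro f hf
    exact contDiffOn_zero.2 fun p hp => (hasFDeriv hm hU hf hp).continuousAt.continuousWithinAt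
  | succ n ih =>
    intro f hf
    rw [show ((n + 1 : ℕ) : WithTop ℕ∞) = n + 1 by push_cast; rfl,
      contDiffOn_succ_iff_fderiv_of_isOpen hU]
    refine ⟨fun p hp => (hasFDeriv hm hU hf hp).differentiableAt.differentiableWithinAt,
      fun h => by simp at h, ?_⟩
    refine ContDiffOn.congr (f := fun p => L m f p) ?_ fun p hp => (hasFDeriv hm hU hf hp).fderiv
    unfold L
    exact ContDiffOn.sum fun i _ => (ih _ (om_deriv hm hU hf _)).smul contDiffOn_const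

/-- differentiation under the functional -/
theorem avg (hm : PFun 𝓕 m) (hU : IsOpen U) (hf : OM 𝓕 f U) :
    ContDiffOn ℝ ∞ (fun p => m (fun γ => f γ p)) U ∧
      ∀ p ∈ U, ∀ v : E d, fderiv ℝ (fun p => m (fun γ => f γ p)) p v =
        m (fun γ => fderiv ℝ (f γ) p v) := by
  refine ⟨contDiffOn_infty.2 fun n => smooth_nat hm hU n f hf, fun p hp v => ?_⟩
  rw [(hasFDeriv hm hU hf hp).fderiv, L_apply hm hU hf hp]

/-- the mean of order bounded alternating maps -/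
theorem exists_avg {k : ℕ} (hm : PFun 𝓕 m) (F : P → (E d) [⋀^Fin k]→L[ℝ] ℝ)
    (hF𝓕 : ∀ u, (fun γ => F γ u) ∈ 𝓕)
    (hF : ∃ C ∈ 𝓕, ∀ γ u, |F γ u| ≤ (∏ i, ‖u i‖) * C γ) :
    ∃ α : (E d) [⋀^Fin k]→L[ℝ] ℝ, ∀ u, α u = m (fun γ => F γ u) := by
  obtain ⟨C, hC𝓕, hC⟩ := hF
  let f : (E d) [⋀^Fin k]→ₗ[ℝ] ℝ :=
    { toFun := fun u => m (fun γ => F γ u)
      map_update_add' := by
        intro _ u i x y
        have h1 : ∀ γ, F γ (Function.update u i (x + y)) =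
            F γ (Function.update u i x) + F γ (Function.update u i y) := fun γ => by
          convert (F γ).map_update_add u i x y
        simp only [h1]
        exact hm.add _ (hF𝓕 _) _ (hF𝓕 _)
      map_update_smul' := by
        intro _ u i c x
        have h1 : ∀ γ, F γ (Function.update u i (c • x)) =
            c * F γ (Function.update u i x) := fun γ => by
          rw [← smul_eq_mul]
          convert (F γ).map_update_smul u i c x
        simp only [h1]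
        exact hm.smul _ _ (hF𝓕 _)
      map_eq_zero_of_eq' := by
        intro u i j hij hne
        have h1 : ∀ γ, F γ u = 0 := fun γ => (F γ).map_eq_zero_of_eq u hij hne
        simp only [h1]
        exact m_const hm 0 }
  refine ⟨AlternatingMap.mkContinuous f (m C) fun u => ?_, fun u => rfl⟩
  have h := m_abs hm (hF𝓕 u) (hm.smul_mem (∏ i, ‖u i‖) _ hC𝓕) (fun γ => hC γ u)
  rw [hm.smul _ _ hC𝓕, mul_comm] at h
  exact h

end Pool.Agent.Zk74.MF
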