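import Pool.Agent.Zk74.MF.Fam
import Pool.Agent.N763.SY.Mean

/-!
Means of families of one-forms and of their exterior derivatives (after `Pool.Agent.Y455.SY.Mean1`).
-/

set_option autoImplicit false
set_option linter.all false

open Set Filter Topology MeasureTheory Asymptotics
open scoped Manifold ContDiff

noncomputable section

namespace Pool.Agent.Zk74.MF

open Pool.Agent.Y501.SY
open Pool.Agent.Y455.SY (evl smooth_of_eval)

section chart

variable {d : ℕ} {Z : Type} [TopologicalSpace Z] [ChartedSpace (E d) Z] [IsManifold (𝓡 d) ∞ Z]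

/-- the values of a form in terms of its pull-back by the inverse of a chart -/
theorem chart_eval (z : Z) : ∃ (U : Set (E d)) (φ : E d → Z) (q : E d) (B : E d →L[ℝ] E d),
    IsOpen U ∧ ContMDiffOn (𝓡 d) (𝓡 d) ∞ φ U ∧ q ∈ U ∧
      ∀ (k : ℕ) (w : Form d Z k) (u : Fin k → E d),
        (w z : (E d) [⋀^Fin k]→L[ℝ] ℝ) u = pb φ w q (fun i => B (u i)) := by
  obtain ⟨e, he⟩ : ∃ e, e = chartAt (E d) z := ⟨_, rfl⟩
  have hat : e ∈ atlas (E d) Z := by rw [he]; exact chart_mem_atlas _ _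
  have hz : z ∈ e.source := by rw [he]; exact mem_chart_source _ _
  have hsmooth : ContMDiffOn (𝓡 d) (𝓡 d) ∞ e.symm e.target := by
    rw [he]
    exact contMDiffOn_chart_symm
  have hmd := mdifferentiable_chart (I := 𝓡 d) z
  rw [← he] at hmd
  have hpt : e z ∈ e.target := e.map_source hz
  let B : E d →L[ℝ] E d := mfderiv (𝓡 d) (𝓡 d) e z
  let A : E d →L[ℝ] E d := mfderiv (𝓡 d) (𝓡 d) e.symm (e z)
  have hAB : ∀ v : E d, A (B v) = v := fun v =>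
    DFunLike.congr_fun (hmd.symm_comp_deriv hz) v
  refine ⟨e.target, e.symm, e z, B, e.open_target, hsmooth, hpt, fun k w u => ?_⟩
  have h3 : ∀ z' : Z, z' = z → (w z : (E d) [⋀^Fin k]→L[ℝ] ℝ) u =
      (w z' : (E d) [⋀^Fin k]→L[ℝ] ℝ) u := by
    rintro z' rfl
    rfl
  rw [h3 _ (e.left_inv hz)]
  change _ = (w (e.symm (e z)) : (E d) [⋀^Fin k]→L[ℝ] ℝ) (fun i => A (B (u i)))
  congr 1
  funext i
  exact (hAB (u i)).symm

theorem isD_unique {k : ℕ} {β : Form d Z k} {η η' : Form d Z (k + 1)} (h : IsD β η)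
    (h' : IsD β η') : η = η' := by
  funext z
  ext u
  obtain ⟨U, φ, q, B, hU, hφ, hq, hev⟩ := chart_eval (d := d) z
  have h1 := hev (k + 1) η u
  have h2 := hev (k + 1) η' u
  rw [← h U φ hU hφ q hq] at h1
  rw [← h' U φ hU hφ q hq] at h2
  exact h1.trans h2.symm

end chart

section pullback

variable {d : ℕ} {X Y : Type} [TopologicalSpace X] [ChartedSpace (E d) X]
  [TopologicalSpace Y] [ChartedSpace (E d) Y]

theorem pb_comp {f : X → Y} (hf : ContMDiff (𝓡 d) (𝓡 d) ∞ f) {φ : E d → X} {p : E d}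
    (hφ : MDifferentiableAt (𝓡 d) (𝓡 d) φ p) :
    mfderiv (𝓡 d) (𝓡 d) (fun q => f (φ q)) p =
      (mfderiv (𝓡 d) (𝓡 d) f (φ p)).comp (mfderiv (𝓡 d) (𝓡 d) φ p) :=
  mfderiv_comp p (hf.mdifferentiableAt (by simp)) hφ

theorem pb_pull1 {f : X → Y} (hf : ContMDiff (𝓡 d) (𝓡 d) ∞ f) {φ : E d → X} {p : E d}
    (hφ : MDifferentiableAt (𝓡 d) (𝓡 d) φ p) (β : Form d Y 1) :
    pb φ (pull1 (d := d) f β) p = pb (fun q => f (φ q)) β p := by
  unfold pb pull1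
  rw [pb_comp hf hφ]
  rfl

theorem pb_pull2 {f : X → Y} (hf : ContMDiff (𝓡 d) (𝓡 d) ∞ f) {φ : E d → X} {p : E d}
    (hφ : MDifferentiableAt (𝓡 d) (𝓡 d) φ p) (β : Form d Y 2) :
    pb φ (pull (d := d) f β) p = pb (fun q => f (φ q)) β p := by
  unfold pb pull
  rw [pb_comp hf hφ]
  rfl

theorem isD_pull {f : X → Y} (hf : ContMDiff (𝓡 d) (𝓡 d) ∞ f) {β : Form d Y 1} {η : Form d Y 2}
    (h : IsD β η) : IsD (pull1 (d := d) f β) (pull (d := d) f η) := by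
  intro U φ hU hφ p hp
  have hmd : ∀ q ∈ U, MDifferentiableAt (𝓡 d) (𝓡 d) φ q := fun q hq =>
    (hφ.contMDiffAt (hU.mem_nhds hq)).mdifferentiableAt (by simp)
  have h1 : pb φ (pull1 (d := d) f β) =ᶠ[𝓝 p] pb (fun q => f (φ q)) β := by
    filter_upwards [hU.mem_nhds hp] with q hq
    exact pb_pull1 hf (hmd q hq) β
  have h2 : extDeriv (pb φ (pull1 (d := d) f β)) p = extDeriv (pb (fun q => f (φ q)) β) p := by
    unfold extDeriv
    rw [h1.fderiv_eq]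
  rw [h2, pb_pull2 hf (hmd p hp)]
  exact h U _ hU (hf.comp_contMDiffOn hφ) p hp

end pullback

section family

variable {P : Type} {𝓕 : Set (P → ℝ)} {m : (P → ℝ) → ℝ} {d k : ℕ}
  {Z : Type} [TopologicalSpace Z] [ChartedSpace (E d) Z]

/-- a family of forms is locally bounded, with all derivatives, by elements of `𝓕` -/
def OBF (𝓕 : Set (P → ℝ)) (w : P → Form d Z k) : Prop :=
  ∀ (U : Set (E d)) (φ : E d → Z), IsOpen U → ContMDiffOn (𝓡 d) (𝓡 d) ∞ φ U →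
    OB 𝓕 (fun p : P => pb φ (w p)) U

/-- the values of the family are in `𝓕` -/
def Val (𝓕 : Set (P → ℝ)) (w : P → Form d Z k) : Prop :=
  ∀ (z : Z) (u : Fin k → TangentSpace (𝓡 d) z), (fun p : P => w p z u) ∈ 𝓕

theorem ob_eval (hm : PFun 𝓕 m) {U : Set (E d)} (hU : IsOpen U)
    {F : P → E d → (E d) [⋀^Fin k]→L[ℝ] ℝ} (h : OB 𝓕 F U) (v : Fin k → E d) :
    OB 𝓕 (fun γ p => F γ p v) U := by
  refine ⟨fun γ => (evl v).contDiff.comp_contDiffOn (h.1 γ), fun n p hp => ?_⟩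
  obtain ⟨N, hN, C, hC𝓕, hC⟩ := h.2 n p hp
  refine ⟨N ∩ U, inter_mem hN (hU.mem_nhds hp), fun γ => ‖evl v‖ * C γ, hm.smul_mem _ _ hC𝓕,
    fun q hq γ => ?_⟩
  have h1 : ContDiffAt ℝ ∞ (F γ) q := (h.1 γ).contDiffAt (hU.mem_nhds hq.2)
  have h2 : iteratedFDeriv ℝ n (fun p => F γ p v) q =
      (evl v).compContinuousMultilinearMap (iteratedFDeriv ℝ n (F γ) q) :=
    (evl v).iteratedFDeriv_comp_left h1 (by exact_mod_cast le_top)
  rw [h2]
  refine ((evl v).norm_compContinuousMultilinearMap_le _).trans ?_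
  exact mul_le_mul_of_nonneg_left (hC q hq.1 γ) (norm_nonneg _)

theorem val_pb {w : P → Form d Z k} (hv : Val 𝓕 w) (φ : E d → Z) (q : E d) (v : Fin k → E d) :
    (fun p : P => pb φ (w p) q v) ∈ 𝓕 :=
  hv (φ q) (fun i => mfderiv (𝓡 d) (𝓡 d) φ q (v i))

theorem om_pb (hm : PFun 𝓕 m) {w : P → Form d Z k} (hw : OBF 𝓕 w) (hv : Val 𝓕 w)
    {U : Set (E d)} (hU : IsOpen U) {φ : E d → Z} (hφ : ContMDiffOn (𝓡 d) (𝓡 d) ∞ φ U)
    (v : Fin k → E d) : OM 𝓕 (fun (p : P) q => pb φ (w p) q v) U :=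
  ⟨ob_eval hm hU (hw U φ hU hφ) v, fun q _ => val_pb hv φ q v⟩

variable [IsManifold (𝓡 d) ∞ Z]

/-- the mean of a family of forms -/
theorem mean_form (hm : PFun 𝓕 m) {w : P → Form d Z k} (hw : OBF 𝓕 w) (hv : Val 𝓕 w) :
    ∃ w' : Form d Z k, IsSmooth w' ∧
      ∀ (z : Z) (u : Fin k → TangentSpace (𝓡 d) z), w' z u = m (fun p : P => w p z u) := by
  have bound : ∀ z : Z, ∃ C ∈ 𝓕, ∀ (γ : P) (u : Fin k → E d),
      |(w γ z : (E d) [⋀^Fin k]→L[ℝ] ℝ) u| ≤ (∏ i, ‖u i‖) * C γ := by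
    intro z
    obtain ⟨U, φ, q, B, hU, hφ, hq, hev⟩ := chart_eval (d := d) z
    obtain ⟨N, hN, C, hC𝓕, hC⟩ := (hw U φ hU hφ).2 0 q hq
    have hC' : ∀ γ : P, ‖pb φ (w γ) q‖ ≤ C γ := fun γ => by
      have := hC q (mem_of_mem_nhds hN) γ
      rwa [norm_iteratedFDeriv_zero] at this
    refine ⟨fun γ => ‖B‖ ^ k * C γ, hm.smul_mem _ _ hC𝓕, fun γ u => ?_⟩
    have hC0 : 0 ≤ C γ := (norm_nonneg _).trans (hC' γ)
    rw [hev]
    refine ((pb φ (w γ) q).le_opNorm _).trans ?_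
    refine (mul_le_mul_of_nonneg_right (hC' γ)
      (Finset.prod_nonneg fun i _ => norm_nonneg _)).trans ?_
    have h1 : ∏ i, ‖B (u i)‖ ≤ ‖B‖ ^ k * ∏ i, ‖u i‖ := by
      calc ∏ i, ‖B (u i)‖ ≤ ∏ i, (‖B‖ * ‖u i‖) :=
            Finset.prod_le_prod (fun i _ => norm_nonneg _) (fun i _ => B.le_opNorm (u i))
        _ = ‖B‖ ^ k * ∏ i, ‖u i‖ := by
            rw [Finset.prod_mul_distrib, Finset.prod_const, Finset.card_univ, Fintype.card_fin]
    calc C γ * ∏ i, ‖B (u i)‖ ≤ C γ * (‖B‖ ^ k * ∏ i, ‖u i‖) := mul_le_mul_of_nonneg_left h1 hC0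
      _ = (∏ i, ‖u i‖) * (‖B‖ ^ k * C γ) := by ring
  have hex : ∀ z : Z, ∃ α : (E d) [⋀^Fin k]→L[ℝ] ℝ, ∀ u : Fin k → E d, α u =
      m (fun γ : P => (w γ z : (E d) [⋀^Fin k]→L[ℝ] ℝ) u) :=
    fun z => exists_avg hm _ (fun u => hv z u) (bound z)
  choose w' hw' using hex
  have hev : ∀ (φ : E d → Z) (p : E d), ∀ v : Fin k → E d, pb φ (w' : Form d Z k) p v =
      m (fun γ : P => pb φ (w γ) p v) := by
    intro φ p v
    exact hw' (φ p) (fun i => mfderiv (𝓡 d) (𝓡 d) φ p (v i))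
  refine ⟨w', ?_, fun z u => hw' z u⟩
  intro U φ hU hφ
  refine smooth_of_eval fun v => ?_
  exact (avg hm hU (om_pb hm hw hv hU hφ v)).1.congr fun p hp => hev φ p v

/-- the exterior derivatives of a family in local coordinates -/
theorem d_eval {β : P → Form d Z 1} {η : P → Form d Z 2} (hβ : ∀ p, IsSmooth (β p))
    (hD : ∀ p, IsD (β p) (η p)) {U : Set (E d)} (hU : IsOpen U) {φ : E d → Z}
    (hφ : ContMDiffOn (𝓡 d) (𝓡 d) ∞ φ U) {q : E d} (hq : q ∈ U) (v : Fin 2 → E d) (p : P) :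
    pb φ (η p) q v = ∑ i : Fin 2, (-1 : ℝ) ^ i.val *
      fderiv ℝ (fun q => pb φ (β p) q (i.removeNth v)) q (v i) := by
  have h5 := hD p U φ hU hφ q hq
  have h6 : DifferentiableAt ℝ (pb φ (β p)) q :=
    ((hβ p U _ hU hφ).contDiffAt (hU.mem_nhds hq)).differentiableAt (by simp)
  have h7 : extDeriv (pb φ (β p)) q v = pb φ (η p) q v := congrArg (fun α => α v) h5
  rw [extDeriv_apply h6] at h7
  rw [← h7]
  simp only [zsmul_eq_mul, Int.cast_pow, Int.cast_neg, Int.cast_one]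

theorem val_d (hm : PFun 𝓕 m) {β : P → Form d Z 1} {η : P → Form d Z 2}
    (hβ : ∀ p, IsSmooth (β p)) (hD : ∀ p, IsD (β p) (η p)) (hw : OBF 𝓕 β) (hv : Val 𝓕 β) :
    Val 𝓕 η := by
  intro z u
  obtain ⟨U, φ, q, B, hU, hφ, hq, hev⟩ := chart_eval (d := d) z
  have h1 : (fun p : P => η p z u) = fun p => ∑ i : Fin 2, (-1 : ℝ) ^ i.val *
      fderiv ℝ (fun q => pb φ (β p) q (i.removeNth (fun i => B (u i)))) q (B (u i)) := by
    funext p
    rw [← d_eval hβ hD hU hφ hq (fun i => B (u i)) p]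
    exact hev 2 (η p) u
  rw [h1]
  exact (m_sum hm Finset.univ (fun i : Fin 2 => (-1 : ℝ) ^ i.val)
    (fun (i : Fin 2) (p : P) =>
      fderiv ℝ (fun q => pb φ (β p) q (i.removeNth (fun i => B (u i)))) q (B (u i)))
    (fun i => (om_deriv hm hU (om_pb hm hw hv hU hφ _) _).2 q hq)).1

theorem obf_d (hm : PFun 𝓕 m) {β : P → Form d Z 1} {η : P → Form d Z 2}
    (hη : ∀ p, IsSmooth (η p)) (hD : ∀ p, IsD (β p) (η p)) (hw : OBF 𝓕 β) : OBF 𝓕 η := by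
  intro U φ hU hφ
  obtain ⟨h1, h2⟩ := hw U φ hU hφ
  obtain ⟨K, hK, hbound⟩ := Pool.Agent.Y903.SY.bound (E d)
  refine ⟨fun γ => hη γ U _ hU hφ, ?_⟩
  intro n p hp
  obtain ⟨N, hN, C, hC𝓕, hC⟩ := h2 (n + 1) p hp
  refine ⟨N ∩ U, inter_mem hN (hU.mem_nhds hp), fun γ => K * C γ, hm.smul_mem _ _ hC𝓕, ?_⟩
  rintro q ⟨hqN, hqU⟩ γ
  exact (hbound U hU _ _ (h1 γ) (hD γ U _ hU hφ) n q hqU).trans
    (mul_le_mul_of_nonneg_left (hC q hqN γ) hK)

/-- the means of a family of one-forms and of its exterior derivatives -/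
theorem mean_pair (hm : PFun 𝓕 m) {β : P → Form d Z 1} {η : P → Form d Z 2}
    (hβ : ∀ p, IsSmooth (β p)) (hη : ∀ p, IsSmooth (η p)) (hD : ∀ p, IsD (β p) (η p))
    (hw : OBF 𝓕 β) (hv : Val 𝓕 β) :
    ∃ (β' : Form d Z 1) (η' : Form d Z 2), IsSmooth β' ∧ IsSmooth η' ∧ IsD β' η' ∧
      (∀ (z : Z) (u : Fin 1 → TangentSpace (𝓡 d) z), β' z u = m (fun p : P => β p z u)) ∧
      ∀ (z : Z) (u : Fin 2 → TangentSpace (𝓡 d) z), η' z u = m (fun p : P => η p z u) := by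
  obtain ⟨β', hs1, he1⟩ := mean_form hm hw hv
  have hvη := val_d hm hβ hD hw hv
  obtain ⟨η', hs2, he2⟩ := mean_form hm (obf_d hm hη hD hw) hvη
  refine ⟨β', η', hs1, hs2, ?_, he1, he2⟩
  intro U φ hU hφ p hp
  have hd : DifferentiableAt ℝ (pb φ (β' : Form d Z 1)) p :=
    ((hs1 U φ hU hφ).contDiffAt (hU.mem_nhds hp)).differentiableAt (by simp)
  ext v
  rw [extDeriv_apply hd]
  have h1 : ∀ i : Fin 2, fderiv ℝ (fun q => pb φ (β' : Form d Z 1) q (i.removeNth v)) p (v i) =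
      m (fun γ : P => fderiv ℝ (fun q => pb φ (β γ) q (i.removeNth v)) p (v i)) := by
    intro i
    rw [← (avg hm hU (om_pb hm hw hv hU hφ (i.removeNth v))).2 p hp]
    have h2 : (fun q => pb φ (β' : Form d Z 1) q (i.removeNth v)) =
        fun q => m (fun γ : P => pb φ (β γ) q (i.removeNth v)) := by
      funext q
      have h1 : pb φ (β' : Form d Z 1) q (i.removeNth v) =
          β' (φ q) (fun j => mfderiv (𝓡 d) (𝓡 d) φ q (i.removeNth v j)) := rfl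
      rw [h1, he1]
      rfl
    rw [h2]
  have h8 := (m_sum hm Finset.univ (fun i : Fin 2 => (-1 : ℝ) ^ i.val)
    (fun (i : Fin 2) (γ : P) => fderiv ℝ (fun q => pb φ (β γ) q (i.removeNth v)) p (v i))
    (fun i => (om_deriv hm hU (om_pb hm hw hv hU hφ _) _).2 p hp)).2
  simp only [← d_eval hβ hD hU hφ hp v] at h8
  have h9 : pb φ (η' : Form d Z 2) p v = m (fun γ : P => pb φ (η γ) p v) := by
    have h1 : pb φ (η' : Form d Z 2) p v =
        η' (φ p) (fun j => mfderiv (𝓡 d) (𝓡 d) φ p (v j)) := rfl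
    rw [h1, he2]
    rfl
  show ∑ i : Fin 2, (-1 : ℤ) ^ i.val •
    fderiv ℝ (fun q => pb φ (β' : Form d Z 1) q (i.removeNth v)) p (v i) =
      pb φ (η' : Form d Z 2) p v
  simp only [h1, zsmul_eq_mul, Int.cast_pow, Int.cast_neg, Int.cast_one]
  rw [h9]
  exact h8.symm

end family

end Pool.Agent.Zk74.MF
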